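import Pool.Agent.H53.CZ.Targets

/-!
# MP_f2da09_co: linear independent sets in proper vertex-minor-closed classes
Definitions. (`lc`, `LE`, `VMClosed`, `R0`, `gvec` are in `Pool.Agent.H53.CZ`.)
-/

namespace Pool.Agent.H53.HR

open Finset
open Pool.Agent.H53.CZD (lc LE VMClosed R0)

variable {V : Type}

/-- `I` is an independent set of `G`. -/
def Indep (G : SimpleGraph V) (I : Finset V) : Prop := ∀ x ∈ I, ∀ y ∈ I, ¬ G.Adj x y

/-- Every clique of `G` inside `B` has at most `w` vertices. -/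
def CliqueLE (G : SimpleGraph V) (B : Finset V) (w : ℕ) : Prop :=
  ∀ K ⊆ B, (∀ x ∈ K, ∀ y ∈ K, x ≠ y → G.Adj x y) → #K ≤ w

/-- The Hall ratio of the subgraph induced by `B` is at most `h`. -/
def HallLE (G : SimpleGraph V) (B : Finset V) (h : ℕ) : Prop :=
  ∀ U ⊆ B, ∃ I ⊆ U, Indep G I ∧ #U ≤ h * #I

/-- There is no edge between `A` and `B`. -/
def Anti (G : SimpleGraph V) (A B : Finset V) : Prop := ∀ a ∈ A, ∀ b ∈ B, ¬ G.Adj a b

/-- The subgraph induced by `Q` is connected (in terms of cuts). -/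
def Conn (G : SimpleGraph V) (Q : Finset V) : Prop :=
  Q.Nonempty ∧ ∀ S ⊆ Q, S.Nonempty → S ≠ Q → ∃ x ∈ S, ∃ y ∈ Q, y ∉ S ∧ G.Adj x y

/-- `G'` is obtained from `G` by local complementations at vertices of `Q`. -/
inductive LQ (Q : Finset V) (G : SimpleGraph V) : SimpleGraph V → Prop
  | refl : LQ Q G G
  | step {G' : SimpleGraph V} (v : V) : v ∈ Q → LQ Q G G' → LQ Q G (lc G' v)

open Classical in
/-- The neighbourhood of `v` in `Q` as a vector. -/
noncomputable def nb (G : SimpleGraph V) (Q : Finset V) (v : V) : V → ZMod 2 :=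
  fun i => if i ∈ Q ∧ G.Adj v i then 1 else 0

/-- `IP G a U`: `U` is the vertex set of an induced path of `G` with end `a`. -/
inductive IP [DecidableEq V] (G : SimpleGraph V) : V → Finset V → Prop
  | single (a : V) : IP G a {a}
  | cons (a b : V) (U : Finset V) : IP G b U → a ∉ U → G.Adj a b →
      (∀ u ∈ U, u ≠ b → ¬ G.Adj a u) → IP G a (insert a U)

/-- A configuration: connected sets `Q l`, columns `x j` and connecting vertices `p l j`. -/
structure Cfg (G : SimpleGraph V) (k m : ℕ) (Q : Fin k → Finset V) (p : Fin k → Fin m → V)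
    (x : Fin m → V) : Prop where
  conn : ∀ l, Conn G (Q l)
  antiQ : ∀ l l', l ≠ l' → Anti G (Q l) (Q l') ∧ Disjoint (Q l) (Q l')
  antiP : ∀ l l', l < l' → ∀ j, ∀ q ∈ Q l, ¬ G.Adj q (p l' j)
  att : ∀ l j, ∃ q ∈ Q l, G.Adj (p l j) q
  antiX : ∀ l j, x j ∉ Q l ∧ ∀ q ∈ Q l, ¬ G.Adj q (x j)
  col : ∀ l j j', G.Adj (p l j) (x j') ↔ j = j'
  indX : ∀ j j', ¬ G.Adj (x j) (x j')

end Pool.Agent.H53.HR
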