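import Pool.Agent.H53.HR.Targets

namespace Pool.Agent.H53.HR

open Finset
open Pool.Agent.H53.CZD (lc LE VMClosed R0)

section
variable {V : Type}

theorem nb_supp (G : SimpleGraph V) (Q : Finset V) (v i : V) (h : i ∉ Q) : nb G Q v i = 0 := by
  classical
  unfold nb
  exact if_neg (fun hc => h hc.1)

theorem nb_self (G : SimpleGraph V) (Q : Finset V) (v : V) : nb G Q v v = 0 := by
  classical
  unfold nb
  exact if_neg (fun hc => G.loopless.irrefl v hc.2)

theorem span_supp (G : SimpleGraph V) (Q : Finset V) (H : Set V) :
    ∀ x ∈ Submodule.span (ZMod 2) (nb G Q '' H), ∀ i, i ∉ Q → x i = 0 := by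
  intro x hx i hi
  induction hx using Submodule.span_induction with
  | mem y hy =>
    obtain ⟨u, _, rfl⟩ := hy
    exact nb_supp G Q u i hi
  | zero => rfl
  | add y z _ _ h1 h2 => rw [Pi.add_apply, h1, h2, add_zero]
  | smul a y _ h1 => rw [Pi.smul_apply, h1, smul_zero]

theorem card_span (G : SimpleGraph V) (Q H : Finset V)
    (h : LinearIndepOn (ZMod 2) (nb G Q) (H : Set V)) :
    Module.finrank (ZMod 2) (Submodule.span (ZMod 2) (nb G Q '' (H : Set V))) = #H := by
  classical
  have h1 : LinearIndependent (ZMod 2) (fun x : (H : Set V) => nb G Q x) := h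
  have h2 := finrank_span_eq_card h1
  have h3 : Set.range (fun x : (H : Set V) => nb G Q x) = nb G Q '' (H : Set V) := by
    ext y; simp
  rw [h3] at h2
  rw [h2]
  simp

instance finite_span (G : SimpleGraph V) (Q H : Finset V) :
    Module.Finite (ZMod 2) (Submodule.span (ZMod 2) (nb G Q '' (H : Set V))) :=
  FiniteDimensional.span_of_finite (ZMod 2) (H.finite_toSet.image _)

/-- Some unit vector is missing. -/
theorem exists_unit [DecidableEq V] (G : SimpleGraph V) (Q H : Finset V)
    (h : LinearIndepOn (ZMod 2) (nb G Q) (H : Set V)) (hc : #H < #Q) :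
    ∃ q ∈ Q, (Pi.single q 1 : V → ZMod 2) ∉
      Submodule.span (ZMod 2) (nb G Q '' (H : Set V)) := by
  by_contra hcon
  push Not at hcon
  have h1 : LinearIndependent (ZMod 2) (fun q : Q => (Pi.single (q : V) 1 : V → ZMod 2)) := by
    exact (Pi.linearIndependent_single_one V (ZMod 2)).comp (fun q : Q => (q : V))
      Subtype.val_injective
  have h2 := finrank_span_eq_card h1
  have h3 : Submodule.span (ZMod 2)
      (Set.range (fun q : Q => (Pi.single (q : V) 1 : V → ZMod 2))) ≤
      Submodule.span (ZMod 2) (nb G Q '' (H : Set V)) := by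
    rw [Submodule.span_le]
    rintro _ ⟨q, rfl⟩
    exact hcon q q.2
  have h4 := Submodule.finrank_mono h3
  rw [h2, card_span G Q H h, Fintype.card_coe] at h4
  omega

/-- And `#H ≤ #Q`. -/
theorem card_le (G : SimpleGraph V) (Q H : Finset V)
    (h : LinearIndepOn (ZMod 2) (nb G Q) (H : Set V)) : #H ≤ #Q := by
  classical
  rw [← card_span G Q H h]
  have h3 : Submodule.span (ZMod 2) (nb G Q '' (H : Set V)) ≤
      Submodule.span (ZMod 2)
        ((Q.image (fun q => (Pi.single q 1 : V → ZMod 2)) : Finset (V → ZMod 2)) :
          Set (V → ZMod 2)) := by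
    intro x hx
    have h4 : x = ∑ q ∈ Q, x q • (Pi.single q 1 : V → ZMod 2) := by
      funext i
      rw [Finset.sum_apply]
      by_cases hi : i ∈ Q
      · rw [Finset.sum_eq_single i]
        · simp
        · intro b _ hb
          rw [Pi.smul_apply, Pi.single_eq_of_ne (Ne.symm hb), smul_zero]
        · intro hb; exact absurd hi hb
      · rw [span_supp G Q _ x hx i hi]
        symm
        apply Finset.sum_eq_zero
        intro b hb
        rw [Pi.smul_apply, Pi.single_eq_of_ne, smul_zero]
        rintro rfl
        exact hi hb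
    rw [h4]
    apply Submodule.sum_mem
    intro q hq
    apply Submodule.smul_mem
    apply Submodule.subset_span
    rw [mem_coe]
    exact mem_image_of_mem _ hq
  have h5 := Submodule.finrank_mono h3
  have h6 : Module.finrank (ZMod 2) (Submodule.span (ZMod 2)
      ((Q.image (fun q => (Pi.single q 1 : V → ZMod 2)) : Finset (V → ZMod 2)) :
          Set (V → ZMod 2))) ≤ #(Q.image (fun q => (Pi.single q 1 : V → ZMod 2))) :=
    finrank_span_finset_le_card _
  have h7 : #(Q.image (fun q => (Pi.single q 1 : V → ZMod 2))) ≤ #Q := card_image_le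
  omega

end

/-- The map `t ↦ t + t(q) • v`. -/
def tv {V : Type} (q : V) (v : V → ZMod 2) : (V → ZMod 2) →ₗ[ZMod 2] (V → ZMod 2) :=
  LinearMap.id + (LinearMap.proj q : (V → ZMod 2) →ₗ[ZMod 2] ZMod 2).smulRight v

theorem tv_apply {V : Type} (q : V) (v t : V → ZMod 2) : tv q v t = t + t q • v := by
  simp [tv]

theorem tv_tv {V : Type} (q : V) (v t : V → ZMod 2) (hv : v q = 0) : tv q v (tv q v t) = t := by
  rw [tv_apply, tv_apply]
  funext i
  simp only [Pi.add_apply, Pi.smul_apply, smul_eq_mul, hv, mul_zero, add_zero]
  rw [add_assoc, CharTwo.add_self_eq_zero, add_zero]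

theorem tv_inj {V : Type} (q : V) (v : V → ZMod 2) (hv : v q = 0) :
    Function.Injective (tv q v) := by
  intro a b h
  rw [← tv_tv q v a hv, ← tv_tv q v b hv, h]

theorem fm (hLQA : LQA) (hLCC : LCC) (hLTR : LTR) (hSTP : STP) : FM := by
  classical
  intro V _ G Q H
  have main : ∀ N : ℕ, ∀ (G : SimpleGraph V) (Q : Finset V), #Q = N → Conn G Q →
      Disjoint Q H → H.Nonempty → LinearIndepOn (ZMod 2) (nb G Q) (H : Set V) →
      ∃ (G' : SimpleGraph V) (Q' : Finset V), Q' ⊆ Q ∧ LQ Q G G' ∧ Conn G' Q' ∧ #Q' = #H ∧
        LinearIndepOn (ZMod 2) (nb G' Q') (H : Set V) := by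
    intro N
    induction N with
    | zero =>
      intro G Q hQ hconn
      exfalso
      rw [card_eq_zero] at hQ
      exact (hconn.1.ne_empty) hQ
    | succ N ih =>
      intro G Q hQ hconn hdis hne hli
      rcases Nat.lt_or_ge (#H) (#Q) with hlt | hge
      swap
      · exact ⟨G, Q, subset_refl _, LQ.refl, hconn, le_antisymm hge (card_le G Q H hli), hli⟩
      have hH1 : 1 ≤ #H := card_pos.mpr hne
      have hQ2 : 2 ≤ #Q := by omega
      obtain ⟨q, hq, hqW⟩ := exists_unit G Q H hli hlt
      have hcard : #(Q.erase q) = N := by rw [card_erase_of_mem hq]; omega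
      have hdis' : Disjoint (Q.erase q) H := hdis.mono_left (erase_subset _ _)
      have hqH : ∀ h ∈ H, h ∉ Q := fun h hh hhQ => (disjoint_left.mp hdis) hhQ hh
      have hEQ : Q.erase q ⊆ Q := erase_subset _ _
      obtain ⟨hs1, hs2⟩ := hSTP V G Q H q hconn hdis hli hq hQ2
      by_cases hc : Conn G (Q.erase q)
      · obtain ⟨G', Q', h1, h2, h3, h4, h5⟩ := ih G (Q.erase q) hcard hc hdis' hne (hs1 hc hqW)
        exact ⟨G', Q', h1.trans hEQ, (hLQA V _ _ _ h2).2.1 _ hEQ, h3, h4, h5⟩
      · by_cases hN : nb G Q q + Pi.single q 1 ∈
            Submodule.span (ZMod 2) (nb G Q '' (H : Set V))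
        swap
        · obtain ⟨hc1, hl1⟩ := hs2 hc hN
          obtain ⟨G', Q', h1, h2, h3, h4, h5⟩ := ih (lc G q) (Q.erase q) hcard hc1 hdis' hne hl1
          refine ⟨G', Q', h1.trans hEQ, ?_, h3, h4, h5⟩
          have h6 : LQ Q G (lc G q) := LQ.step q hq LQ.refl
          exact (hLQA V _ _ _ h6).2.2.1 _ ((hLQA V _ _ _ h2).2.1 _ hEQ)
        · -- pivot case
          have hN2 : nb G Q q ∉ Submodule.span (ZMod 2) (nb G Q '' (H : Set V)) := by
            intro h
            apply hqW
            have h1 := Submodule.add_mem _ h hN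
            have h2 : nb G Q q + (nb G Q q + Pi.single q 1) = (Pi.single q 1 : V → ZMod 2) := by
              funext i
              simp only [Pi.add_apply]
              rw [← add_assoc, CharTwo.add_self_eq_zero, zero_add]
            rwa [h2] at h1
          obtain ⟨x, hx, q', hq'Q, hq'x, hadj⟩ := hconn.2 {q} (by simpa using hq)
            (singleton_nonempty _) (by
              intro he
              rw [← he] at hQ2
              simp at hQ2)
          rw [mem_singleton] at hx
          subst hx
          rw [mem_singleton] at hq'x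
          set G1 := lc G q' with hG1
          have hconn1 : Conn G1 Q := hLCC V G Q q' hconn hq'Q
          have hinv : lc G1 q' = G := by
            have hne' : (H : Set V).Nonempty := hne
            obtain ⟨h0, hh0⟩ := hne
            exact (hLTR V G Q q' h0 (hqH h0 hh0) hq'Q).2.2
          set v := nb G Q q' with hv
          have hvq' : v q' = 0 := nb_self G Q q'
          have hnb1 : ∀ h ∈ H, nb G1 Q h = tv q' v (nb G Q h) := by
            intro h hh
            rw [tv_apply]
            exact (hLTR V G Q q' h (hqH h hh) hq'Q).1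
          have himg : nb G1 Q '' (H : Set V) = tv q' v '' (nb G Q '' (H : Set V)) := by
            rw [Set.image_image]
            exact Set.image_congr hnb1
          have hli1 : LinearIndepOn (ZMod 2) (nb G1 Q) (H : Set V) := by
            have h1 : LinearIndependent (ZMod 2) (fun x : (H : Set V) => nb G Q x) := hli
            have h2 := h1.map' (tv q' v) (LinearMap.ker_eq_bot.mpr (tv_inj q' v hvq'))
            have h3 : (fun x : (H : Set V) => nb G1 Q x) =
                (tv q' v) ∘ (fun x : (H : Set V) => nb G Q x) := by
              funext x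
              exact hnb1 x x.2
            show LinearIndependent (ZMod 2) (fun x : (H : Set V) => nb G1 Q x)
            rw [h3]
            exact h2
          have hnq : nb G1 Q x + Pi.single x 1 = tv q' v (nb G Q x) := by
            have hxq' : x ≠ q' := fun h => hq'x h.symm
            have hone : nb G Q x q' = 1 := by
              unfold nb
              rw [if_pos ⟨hq'Q, hadj⟩]
            rw [tv_apply, hone, one_smul]
            funext i
            simp only [Pi.add_apply]
            by_cases hix : i = x
            · subst hix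
              rw [nb_self, nb_self, Pi.single_eq_same, zero_add, zero_add, hv]
              unfold nb
              rw [if_pos ⟨hq, hadj.symm⟩]
            · rw [Pi.single_eq_of_ne hix, add_zero, hv]
              unfold nb
              have hlc : G1.Adj x i ↔ ¬ (G.Adj x i ↔ G.Adj q' i) := by
                rw [hG1]
                constructor
                · rintro ⟨_, h2⟩ h3
                  apply h2
                  constructor
                  · intro h4; exact ⟨hadj.symm, h3.mp h4⟩
                  · intro h4; exact h3.mpr h4.2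
                · intro h2
                  refine ⟨fun h => hix h.symm, fun h3 => h2 ?_⟩
                  constructor
                  · intro h4; exact (h3.mp h4).2
                  · intro h4; exact h3.mpr ⟨hadj.symm, h4⟩
              by_cases hiQ : i ∈ Q
              · by_cases ha : G.Adj x i
                · by_cases hb : G.Adj q' i
                  · rw [if_neg (fun h => (hlc.mp h.2) ⟨fun _ => hb, fun _ => ha⟩),
                      if_pos ⟨hiQ, ha⟩, if_pos ⟨hiQ, hb⟩]
                    decide
                  · rw [if_pos ⟨hiQ, hlc.mpr (fun h => hb (h.mp ha))⟩,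
                      if_pos ⟨hiQ, ha⟩, if_neg (fun h => hb h.2)]
                    decide
                · by_cases hb : G.Adj q' i
                  · rw [if_pos ⟨hiQ, hlc.mpr (fun h => ha (h.mpr hb))⟩,
                      if_neg (fun h => ha h.2), if_pos ⟨hiQ, hb⟩]
                    decide
                  · rw [if_neg (fun h => (hlc.mp h.2) ⟨fun h' => absurd h' ha,
                      fun h' => absurd h' hb⟩), if_neg (fun h => ha h.2), if_neg (fun h => hb h.2)]
                    decide
              · rw [if_neg (fun h => hiQ h.1), if_neg (fun h => hiQ h.1),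
                  if_neg (fun h => hiQ h.1)]
                decide
          have hnW1 : nb G1 Q x + Pi.single x 1 ∉
              Submodule.span (ZMod 2) (nb G1 Q '' (H : Set V)) := by
            rw [hnq, himg, ← Submodule.map_span]
            rintro ⟨y, hy, hyx⟩
            rw [tv_inj q' v hvq' hyx] at hy
            exact hN2 hy
          have hc1 : ¬ Conn G1 (Q.erase x) := by
            intro h
            apply hc
            have h1 := hLCC V G1 (Q.erase x) q' h (mem_erase.mpr ⟨hq'x, hq'Q⟩)
            rwa [hinv] at h1
          obtain ⟨_, hs4⟩ := hSTP V G1 Q H x hconn1 hdis hli1 hq hQ2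
          obtain ⟨hc2, hl2⟩ := hs4 hc1 hnW1
          obtain ⟨G', Q', h1, h2, h3, h4, h5⟩ := ih (lc G1 x) (Q.erase x) hcard hc2 hdis' hne hl2
          refine ⟨G', Q', h1.trans hEQ, ?_, h3, h4, h5⟩
          have h6 : LQ Q G (lc G1 x) := LQ.step x hq (LQ.step q' hq'Q LQ.refl)
          exact (hLQA V _ _ _ h6).2.2.1 _ ((hLQA V _ _ _ h2).2.1 _ hEQ)
  intro h1 h2 h3 h4
  exact main (#Q) G Q rfl h1 h2 h3 h4

end Pool.Agent.H53.HR
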