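import Pool.Agent.H53.HR.Targets

namespace Pool.Agent.H53.HR

open Finset
open Pool.Agent.H53.CZD (lc LE VMClosed R0)

theorem nb_eq_one {V : Type} (G : SimpleGraph V) (Q : Finset V) (v i : V) (h : nb G Q v i = 1) :
    i ∈ Q ∧ G.Adj v i := by
  classical
  unfold nb at h
  by_contra hc
  rw [if_neg hc] at h
  exact absurd h (by decide)

theorem nb_of {V : Type} (G : SimpleGraph V) (Q : Finset V) (v i : V) (hi : i ∈ Q)
    (h : G.Adj v i) : nb G Q v i = 1 := by
  classical
  unfold nb
  rw [if_pos ⟨hi, h⟩]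

theorem hall (hHSB : HSB) (hCFG : CFG) (hPIN : PIN) (hHOM : HOM) (hSUBC : SUBC) (hCE : CE)
    (hCI : CI) (hCN : CN) : HALL := by
  classical
  intro F hF t H hH w
  induction w with
  | zero =>
    refine ⟨1, fun n G _ B hB => ?_⟩
    have hB0 : B = ∅ := by
      by_contra hne
      obtain ⟨b, hb⟩ := nonempty_iff_ne_empty.mpr hne
      have := hB {b} (by simpa using hb) (by
        intro x hx y hy hxy
        rw [mem_singleton] at hx hy
        exact absurd (hx.trans hy.symm) hxy)
      simp at this
    subst hB0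
    intro U hU
    refine ⟨∅, empty_subset _, ?_, ?_⟩
    · intro x hx; exact absurd hx (notMem_empty _)
    · rw [subset_empty.mp hU]; simp
  | succ w ih =>
    obtain ⟨η0, hη0⟩ := ih
    set η := max η0 1 with hη
    have hη1 : 1 ≤ η := le_max_right _ _
    set R := R0 (t ^ 2 + t) with hR
    set k0 := max (2 * (2 * R + 2)) ((R + 1) * (2 * R + 3) + 1) with hk0
    set m0 := 2 * R + 2 with hm0
    obtain ⟨K1, M1, hH1⟩ := hHOM k0 m0
    obtain ⟨K2, M2, hP2⟩ := hPIN (w + 1) K1 M1
    refine ⟨2 ^ K2 * (4 * (K2 + 1) * η * (M2 + 1)), fun n G hG B hB => ?_⟩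
    by_contra hnot
    have hnbr : ∀ v ∈ B, HallLE G (B.filter (fun y => G.Adj v y)) η := by
      intro v hv
      have h1 : CliqueLE G (B.filter (fun y => G.Adj v y)) w := by
        intro K hK hKc
        have hvK : v ∉ K := by
          intro h
          have := (mem_filter.mp (hK h)).2
          exact G.loopless.irrefl v this
        have h2 := hB (insert v K) (by
          intro x hx
          rcases mem_insert.mp hx with h | h
          · rw [h]; exact hv
          · exact (mem_filter.mp (hK h)).1) (by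
          intro x hx y hy hxy
          rcases mem_insert.mp hx with h | h
          · rcases mem_insert.mp hy with h' | h'
            · exact absurd (h.trans h'.symm) hxy
            · rw [h]; exact (mem_filter.mp (hK h')).2
          · rcases mem_insert.mp hy with h' | h'
            · rw [h']; exact ((mem_filter.mp (hK h)).2).symm
            · exact hKc x h y h' hxy)
        rw [card_insert_of_notMem hvK] at h2
        omega
      have h3 := hη0 n G hG _ h1
      exact (hHSB (Fin n) G _ _ η η0).2.2 h3 (subset_refl _) (le_max_left _ _)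
    obtain ⟨Q, p, x, hcfg, hpB⟩ := hCFG (Fin n) G B η K2 (M2 + 1) hη1 (by omega) hnbr hnot
    -- drop the last column
    have hcfg2 := (hSUBC (Fin n) G K2 (M2 + 1) Q p x hcfg).1 K2 M2 id Fin.castSucc strictMono_id
      (Fin.strictMono_castSucc)
    have hinj2 := (hSUBC _ _ _ _ _ _ _ hcfg2).2.2.2.2
    obtain ⟨g1, e1, hg1, he1, hind⟩ := hP2 (Fin n) G (fun l j => p (id l) (Fin.castSucc j)) B
      (fun l j => hpB _ _) hB hinj2
    have hcfg3 := (hSUBC _ _ _ _ _ _ _ hcfg2).1 K1 M1 g1 e1 hg1 he1
    obtain ⟨g2, e2, s, hg2, he2, hst⟩ := hH1 (Fin n)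
      (fun a b j => nb G (Q (id (g1 b))) (p (id (g1 a)) (Fin.castSucc (e1 j))))
    have hcfg4 := (hSUBC _ _ _ _ _ _ _ hcfg3).1 k0 m0 g2 e2 hg2 he2
    have hs : s = 0 ∨ s = 1 ∨ s = 2 := by
      fin_cases s <;> simp
    have hk1 : 2 * (2 * R + 2) ≤ k0 := le_max_left _ _
    have hk2 : (R + 1) * (2 * R + 3) + 1 ≤ k0 := le_max_right _ _
    rcases hs with hs | hs | hs
    · -- no neighbours
      refine hCN F hF t H hH n G k0 m0 _ _ _ hG hcfg4 (fun l l' j j' => hind _ _ _ _) ?_
        ((Nat.le_succ _).trans hk2) (le_refl _)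
      intro l l' hl j q hq hadj
      have := hst l l' hl
      rcases this with ⟨_, h⟩ | ⟨h, _⟩ | ⟨h, _⟩
      · have h1 := congrFun (h j) q
        have h2 := nb_of G _ _ _ hq hadj
        have h3 : (0 : ZMod 2) = 1 := h1.symm.trans h2
        exact absurd h3 (by decide)
      · exact absurd (hs.symm.trans h) (by decide)
      · exact absurd (hs.symm.trans h) (by decide)
    · -- common neighbours
      refine hCE F hF t H hH n G k0 m0 _ _ _ hG hcfg4 (fun l l' j j' => hind _ _ _ _) ?_
        hk1 (le_refl _)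
      intro l l' hl
      have := hst l l' hl
      rcases this with ⟨h, _⟩ | ⟨_, i, h⟩ | ⟨h, _⟩
      · exact absurd (hs.symm.trans h) (by decide)
      · have hm : 0 < m0 := by omega
        refine ⟨i, (nb_eq_one _ _ _ _ (h ⟨0, hm⟩)).1, fun j => (nb_eq_one _ _ _ _ (h j)).2⟩
      · exact absurd (hs.symm.trans h) (by decide)
    · -- independent traces
      refine hCI F hF t H hH n G k0 m0 _ _ _ hG hcfg4 ?_ hk2 (le_refl _)
      intro l l' hl
      have := hst l l' hl
      rcases this with ⟨h, _⟩ | ⟨h, _⟩ | ⟨_, h⟩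
      · exact absurd (hs.symm.trans h) (by decide)
      · exact absurd (hs.symm.trans h) (by decide)
      · exact h

end Pool.Agent.H53.HR
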