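import Pool.Agent.H53.HR.Targets
import Pool.Agent.H53.CZ.Main

namespace Pool.Agent.H53.HR

open Finset
open Pool.Agent.H53.CZD (lc LE VMClosed R0 gvec p_NR p_LG Rich units mem_span_units)

theorem kap : KAP := by
  classical
  intro F hF t H hH n G I T hG hdis hind hinj
  set q := t ^ 2 + t with hq
  set U := I ∪ T with hU
  have hTU : T ⊆ U := subset_union_right
  have hUT : ∀ x ∈ U, x ∉ T → x ∈ I := by
    intro x hx hxT
    rw [hU, mem_union] at hx
    rcases hx with h | h
    · exact h
    · exact absurd h hxT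
  have hind' : ∀ x ∈ U, x ∉ T → ∀ y ∈ U, y ∉ T → ¬ G.Adj x y :=
    fun x hx hx' y hy hy' => hind x (hUT x hx hx') y (hUT y hy hy')
  set S := (U.image (gvec G T)).erase 0 with hS
  have hnr : ¬ Rich S q := by
    have := p_NR F hF t H hH n G U T hG hTU hind'
    convert this
  have hgI : ∀ x ∈ I, gvec G T x = nb G T x := by
    intro x hx
    have hxT : x ∉ T := fun h => (disjoint_left.mp hdis) hx h
    funext i
    unfold gvec nb
    rw [if_neg hxT]
    by_cases h : i ∈ T ∧ G.Adj x i
    · rw [if_pos h, if_pos h]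
    · rw [if_neg h, if_neg h]
  have hsupp : ∀ u, ∀ i, i ∉ T → gvec G T u i = 0 := by
    intro u i hi
    unfold gvec
    by_cases hu : u ∈ T
    · rw [if_pos hu]
      exact Pi.single_eq_of_ne (fun h => hi (by rw [h]; exact hu)) 1
    · rw [if_neg hu]
      exact if_neg (fun h => hi h.1)
  have h1 := p_LG (Fin n) q S (notMem_erase _ _) hnr
  have h2 : Module.finrank (ZMod 2) (Submodule.span (ZMod 2)
      ((S : Finset (Fin n → ZMod 2)) : Set (Fin n → ZMod 2))) ≤ #T := by
    have h3 : Submodule.span (ZMod 2) ((S : Finset (Fin n → ZMod 2)) : Set (Fin n → ZMod 2)) ≤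
        Submodule.span (ZMod 2) ((units T : Finset (Fin n → ZMod 2)) :
          Set (Fin n → ZMod 2)) := by
      rw [Submodule.span_le]
      intro y hy
      rw [mem_coe, hS, mem_erase, mem_image] at hy
      obtain ⟨_, u, _, rfl⟩ := hy
      exact mem_span_units (hsupp u)
    have h4 := Submodule.finrank_mono h3
    have h5 : Module.finrank (ZMod 2) (Submodule.span (ZMod 2)
        ((units T : Finset (Fin n → ZMod 2)) : Set (Fin n → ZMod 2))) ≤ #(units T) :=
      finrank_span_finset_le_card _
    have h6 : #(units T) ≤ #T := by unfold units; exact card_image_le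
    omega
  have h3 : #I = #(I.image (nb G T)) := by
    rw [card_image_of_injOn]
    intro x hx y hy hxy
    exact hinj x hx y hy hxy
  have h4 : I.image (nb G T) ⊆ insert 0 S := by
    intro y hy
    obtain ⟨x, hx, rfl⟩ := mem_image.mp hy
    rw [mem_insert]
    by_cases hz : nb G T x = 0
    · exact Or.inl hz
    · right
      rw [hS, mem_erase]
      refine ⟨hz, ?_⟩
      rw [← hgI x hx]
      exact mem_image_of_mem _ (mem_union_left _ hx)
  have h5 := card_le_card h4
  have h6 := card_insert_le (0 : Fin n → ZMod 2) S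
  have h7 := Nat.mul_le_mul_left (R0 q) h2
  omega

end Pool.Agent.H53.HR
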