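import Pool.Agent.H53.HR.Targets

namespace Pool.Agent.H53.HR

open Finset

theorem tri : TRI := by
  classical
  intro m
  refine ⟨m * 2 ^ m, fun V v => ?_⟩
  rcases Nat.eq_zero_or_pos m with hm | hm
  · subst hm
    refine ⟨fun j => Fin.elim0 j, 2, fun j => Fin.elim0 j, Or.inr (Or.inr ⟨rfl, ?_⟩)⟩
    exact linearIndependent_empty_type
  set img := univ.image v with himg
  by_cases hc : 2 ^ m ≤ img.card
  · obtain ⟨b, hb1, hb2, hb3⟩ := exists_linearIndependent (ZMod 2) (img : Set (V → ZMod 2))
    have hbfin : b.Finite := (img.finite_toSet).subset hb1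
    have hfd : Module.Finite (ZMod 2) (Submodule.span (ZMod 2) (img : Set (V → ZMod 2))) :=
      FiniteDimensional.span_of_finite (ZMod 2) img.finite_toSet
    have hfin : Finite (Submodule.span (ZMod 2) (img : Set (V → ZMod 2))) :=
      Module.finite_of_finite (ZMod 2)
    have hcard : Nat.card (Submodule.span (ZMod 2) (img : Set (V → ZMod 2))) =
        2 ^ Module.finrank (ZMod 2) (Submodule.span (ZMod 2) (img : Set (V → ZMod 2))) := by
      rw [Module.natCard_eq_pow_finrank (K := ZMod 2), Nat.card_zmod]
    have h1 : img.card ≤ Nat.card (Submodule.span (ZMod 2) (img : Set (V → ZMod 2))) := by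
      have h2 : Function.Injective (fun x : img => (⟨x.1, Submodule.subset_span x.2⟩ :
          Submodule.span (ZMod 2) (img : Set (V → ZMod 2)))) := by
        intro x y h
        exact Subtype.ext (congrArg (fun z => z.1) h)
      have h3 := Nat.card_le_card_of_injective _ h2
      rwa [Nat.card_eq_fintype_card, Fintype.card_coe] at h3
    have h2 : m ≤ Module.finrank (ZMod 2)
        (Submodule.span (ZMod 2) (img : Set (V → ZMod 2))) := by
      by_contra h
      push Not at h
      have h3 : 2 ^ Module.finrank (ZMod 2)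
        (Submodule.span (ZMod 2) (img : Set (V → ZMod 2))) < 2 ^ m :=
        Nat.pow_lt_pow_right (by norm_num) h
      omega
    have hbf : Fintype b := hbfin.fintype
    have h3 : Module.finrank (ZMod 2)
        (Submodule.span (ZMod 2) (img : Set (V → ZMod 2))) = Fintype.card b := by
      rw [← hb2]
      have := finrank_span_eq_card hb3
      rwa [Subtype.range_coe] at this
    have hpre : ∀ y : b, ∃ i, v i = y := by
      intro y
      have := hb1 y.2
      rw [mem_coe, himg, mem_image] at this
      obtain ⟨i, _, hi⟩ := this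
      exact ⟨i, hi⟩
    choose ix hix using hpre
    have hixinj : Function.Injective ix := by
      intro y z h
      apply Subtype.ext
      rw [← hix y, ← hix z, h]
    set J := univ.image ix with hJ
    have hJc : m ≤ #J := by
      rw [hJ, card_image_of_injective _ hixinj, card_univ]
      omega
    obtain ⟨J', hJ', hJc'⟩ := exists_subset_card_eq hJc
    refine ⟨J'.orderEmbOfFin hJc', 2, (J'.orderEmbOfFin hJc').strictMono,
      Or.inr (Or.inr ⟨rfl, ?_⟩)⟩
    have hmem : ∀ j, ∃ y : b, ix y = J'.orderEmbOfFin hJc' j := by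
      intro j
      have := hJ' (J'.orderEmbOfFin_mem hJc' j)
      rw [hJ, mem_image] at this
      obtain ⟨y, _, hy⟩ := this
      exact ⟨y, hy⟩
    choose g hg using hmem
    have hginj : Function.Injective g := by
      intro i j h
      apply (J'.orderEmbOfFin hJc').injective
      rw [← hg i, ← hg j, h]
    have h5 : (fun j => v (J'.orderEmbOfFin hJc' j)) = (fun y : b => (y : V → ZMod 2)) ∘ g := by
      funext j
      rw [← hg j, hix]
      rfl
    rw [h5]
    exact hb3.comp g hginj
  · push Not at hc
    have hM : 0 < m * 2 ^ m := Nat.mul_pos hm (by positivity)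
    have hne : img.Nonempty := ⟨v ⟨0, hM⟩, mem_image_of_mem _ (mem_univ _)⟩
    obtain ⟨u, _, hu⟩ := Finset.exists_le_card_fiber_of_mul_le_card_of_maps_to
      (s := (univ : Finset (Fin (m * 2 ^ m)))) (t := img) (f := v) (n := m)
      (fun a _ => mem_image_of_mem _ (mem_univ _)) hne (by
        rw [card_univ, Fintype.card_fin, Nat.mul_comm]
        exact Nat.mul_le_mul_left _ hc.le)
    obtain ⟨J', hJ', hJc'⟩ := exists_subset_card_eq hu
    have hval : ∀ j, v (J'.orderEmbOfFin hJc' j) = u := by
      intro j
      exact (mem_filter.mp (hJ' (J'.orderEmbOfFin_mem hJc' j))).2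
    by_cases hu0 : u = 0
    · refine ⟨J'.orderEmbOfFin hJc', 0, (J'.orderEmbOfFin hJc').strictMono, Or.inl ⟨rfl, ?_⟩⟩
      intro j
      show v _ = 0
      rw [hval, hu0]
    · refine ⟨J'.orderEmbOfFin hJc', 1, (J'.orderEmbOfFin hJc').strictMono,
        Or.inr (Or.inl ⟨rfl, ?_⟩)⟩
      obtain ⟨i, hi⟩ := Function.ne_iff.mp hu0
      refine ⟨i, fun j => ?_⟩
      show v _ i = 1
      rw [hval]
      have hz : ∀ a : ZMod 2, a ≠ 0 → a = 1 := by decide
      exact hz _ hi

end Pool.Agent.H53.HR
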