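import Pool.Agent.H53.HR.KAP
import Pool.Agent.H53.HR.HALL
import Pool.Agent.H53.HR.FM
import Pool.Agent.H53.HR.TRI
import Pool.Agent.H56.HR.LQA
import Pool.Agent.H56.HR.CZY
import Pool.Agent.H21.HR.CE
import Pool.Agent.H21.HR.CI
import Pool.Agent.H21.HR.CFG
import Pool.Agent.H86.HR.CMP
import Pool.Agent.H86.HR.HOM
import Pool.Agent.H69.HR.DIG
import Pool.Agent.H69.HR.LCC
import Pool.Agent.H17.HR.HSB
import Pool.Agent.H17.HR.FAM
import Pool.Agent.H94.HR.GEO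
import Pool.Agent.H67.HR.IPC
import Pool.Agent.H32.HR.LAY
import Pool.Agent.H32.HR.LEV
import Pool.Agent.H32.HR.LVS
import Pool.Agent.H54.HR.SMP
import Pool.Agent.H49.HR.RAM
import Pool.Agent.H49.HR.PIN
import Pool.Agent.H33.HR.STP
import Pool.Agent.H33.HR.SUBC
import Pool.Agent.H33.HR.TRS

/-!
# All targets: linear independent sets in proper vertex-minor-closed classes
-/

namespace Pool.Agent.H53.HR

theorem p_LQA : LQA := Pool.Agent.H56.HR.lqa
theorem p_CZY : CZY := Pool.Agent.H56.HR.czy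
theorem p_TRI : TRI := tri
theorem p_LCC : LCC := Pool.Agent.H69.HR.lcc
theorem p_LTR : LTR := Pool.Agent.H69.HR.ltr
theorem p_STP : STP := Pool.Agent.H33.HR.STP.stp p_CZY p_LTR
theorem p_FM : FM := fm p_LQA p_LCC p_LTR p_STP
theorem p_TRS : TRS := Pool.Agent.H33.HR.TRS.trs
theorem p_IPC : IPC := Pool.Agent.H67.HR.ipc p_LQA
theorem p_GEO : GEO := Pool.Agent.H94.HR.geo
theorem p_ROW : ROW := Pool.Agent.H67.HR.row p_FM p_TRS p_IPC p_GEO p_LQA
theorem p_FAM : FAM := Pool.Agent.H17.HR.fam p_LQA p_ROW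
theorem p_KAP : KAP := kap
theorem p_HSB : HSB := Pool.Agent.H17.HR.hsb
theorem p_CMP : CMP := Pool.Agent.H86.HR.cmp p_HSB
theorem p_LAY : LAY := Pool.Agent.H32.HR.lay
theorem p_LEV : LEV := Pool.Agent.H32.HR.lev p_HSB p_CMP p_LAY
theorem p_LVS : LVS := Pool.Agent.H32.HR.lvs p_HSB p_LEV
theorem p_DIG : DIG := Pool.Agent.H69.HR.dig
theorem p_SMP : SMP := Pool.Agent.H54.HR.smp p_DIG
theorem p_CFG : CFG := cfg p_LVS p_SMP p_HSB
theorem p_RAM : RAM := Pool.Agent.H49.HR.ram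
theorem p_RMA : RMA := Pool.Agent.H86.HR.rma p_RAM
theorem p_PIN : PIN := Pool.Agent.H49.HR.pin p_RMA
theorem p_HOM : HOM := Pool.Agent.H86.HR.hom p_TRI p_RMA
theorem p_SUBC : SUBC := Pool.Agent.H33.HR.SUBC.subc
theorem p_CE : CE := ce p_KAP p_SUBC
theorem p_CI : CI := ci p_KAP p_FAM p_SUBC
theorem p_CN : CN := cn p_KAP p_FAM p_SUBC
theorem p_HALL : HALL := hall p_HSB p_CFG p_PIN p_HOM p_SUBC p_CE p_CI p_CN

end Pool.Agent.H53.HR
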