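import Pool.Agent.H53.HR.Targets

namespace Pool.Agent.H53.HR

open Finset

theorem rma (h : RAM) : RMA := by
  intro C _ n
  obtain ⟨N, hN⟩ := h (Fintype.card C) n
  refine ⟨N, fun f => ?_⟩
  obtain ⟨g, hg, hh⟩ := hN (fun a b => Fintype.equivFin C (f a b))
  exact ⟨g, hg, fun a b a' b' h1 h2 => (Fintype.equivFin C).injective (hh a b a' b' h1 h2)⟩

theorem cmp (h : HSB) : CMP := by
  classical
  intro V _ G B h0 hB
  have hex : ∃ n : ℕ, ∃ B' ⊆ B, ¬ HallLE G B' h0 ∧ #B' = n := ⟨#B, B, subset_refl _, hB, rfl⟩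
  obtain ⟨B', hB', hn, hc⟩ := Nat.find_spec hex
  have hmin : ∀ S ⊆ B', S ≠ B' → HallLE G S h0 := by
    intro S hS hne
    by_contra hcon
    have h1 : #S < #B' := card_lt_card (hS.ssubset_of_ne hne)
    rw [hc] at h1
    exact Nat.find_min hex h1 ⟨S, hS.trans hB', hcon, rfl⟩
  refine ⟨B', hB', ⟨?_, ?_⟩, hn⟩
  · by_contra hne
    rw [not_nonempty_iff_eq_empty] at hne
    apply hn
    intro U hU
    rw [hne] at hU
    refine ⟨∅, empty_subset _, fun x hx => absurd hx (notMem_empty _), ?_⟩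
    rw [subset_empty.mp hU]; simp
  · intro S hS hSne hSB
    by_contra hcon
    push Not at hcon
    apply hn
    have h1 := hmin S hS hSB
    have h2 : HallLE G (B' \ S) h0 := by
      apply hmin _ sdiff_subset
      intro he
      obtain ⟨s, hs⟩ := hSne
      have : s ∈ B' \ S := by rw [he]; exact hS hs
      exact (mem_sdiff.mp this).2 hs
    have h3 := (h V G S (B' \ S) h0 h0).2.1 h1 h2 (by
      intro a ha b hb
      rw [mem_sdiff] at hb
      exact hcon a ha b hb.1 hb.2)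
    rwa [union_sdiff_of_subset hS] at h3

theorem State.comp {V : Type} {M m : ℕ} {v : Fin M → V → ZMod 2} {s : Fin 3} (h : State v s)
    (e : Fin m → Fin M) (he : StrictMono e) : State (fun j => v (e j)) s := by
  rcases h with ⟨h1, h2⟩ | ⟨h1, i, h2⟩ | ⟨h1, h2⟩
  · exact Or.inl ⟨h1, fun j => h2 _⟩
  · exact Or.inr (Or.inl ⟨h1, i, fun j => h2 _⟩)
  · exact Or.inr (Or.inr ⟨h1, h2.comp e he.injective⟩)

theorem hom_list (h : TRI) (K : ℕ) (L : List (Fin K × Fin K)) : ∀ m : ℕ, ∃ M : ℕ,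
    ∀ (V : Type) (v : Fin K → Fin K → Fin M → V → ZMod 2),
      ∃ e : Fin m → Fin M, StrictMono e ∧ ∀ p ∈ L, ∃ s, State (fun j => v p.1 p.2 (e j)) s := by
  induction L with
  | nil => exact fun m => ⟨m, fun V v => ⟨id, strictMono_id, fun p hp => by simp at hp⟩⟩
  | cons p L ih =>
    intro m
    obtain ⟨M1, h1⟩ := h m
    obtain ⟨M2, h2⟩ := ih M1
    refine ⟨M2, fun V v => ?_⟩
    obtain ⟨e2, he2, hs2⟩ := h2 V v
    obtain ⟨e1, s, he1, hs1⟩ := h1 V (fun j => v p.1 p.2 (e2 j))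
    refine ⟨fun j => e2 (e1 j), he2.comp he1, ?_⟩
    intro p' hp'
    rcases List.mem_cons.mp hp' with hp' | hp'
    · subst hp'
      exact ⟨s, hs1⟩
    · obtain ⟨s', hs'⟩ := hs2 p' hp'
      exact ⟨s', hs'.comp e1 he1⟩

theorem hom (h : TRI) (hR : RMA) : HOM := by
  classical
  intro k m
  obtain ⟨K, hK⟩ := hR (Fin 3) k
  obtain ⟨M, hM⟩ := hom_list h K (univ : Finset (Fin K × Fin K)).toList m
  refine ⟨K, M, fun V v => ?_⟩
  obtain ⟨e, he, hs⟩ := hM V v
  choose s hs' using fun (a b : Fin K) => hs (a, b) (by simp)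
  obtain ⟨g, hg, hh⟩ := hK s
  by_cases hk : 1 < k
  · refine ⟨g, e, s (g ⟨0, by omega⟩) (g ⟨1, hk⟩), hg, he, ?_⟩
    intro a b hab
    have h1 := hh a b ⟨0, by omega⟩ ⟨1, hk⟩ hab (by
      rw [Fin.lt_def]; simp)
    have h2 := hs' (g a) (g b)
    rw [h1] at h2
    exact h2
  · refine ⟨g, e, 0, hg, he, ?_⟩
    intro a b hab
    exfalso
    have h1 := a.2
    have h2 := b.2
    rw [Fin.lt_def] at hab
    omega

end Pool.Agent.H53.HR
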