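import Pool.Agent.H53.HR.Defs

/-!
# Targets (statements as propositions)
-/

namespace Pool.Agent.H53.HR

open Finset
open Pool.Agent.H53.CZD (lc LE VMClosed R0)

/-! ## Local complementations inside a set -/

/-- LQA: basic facts -/
def LQA : Prop := ∀ (V : Type) (Q : Finset V) (G G' : SimpleGraph V), LQ Q G G' →
    LE G G' ∧ (∀ Q' : Finset V, Q ⊆ Q' → LQ Q' G G') ∧
    (∀ G'' : SimpleGraph V, LQ Q G' G'' → LQ Q G G'') ∧
    (∀ r : V, (∀ q ∈ Q, ¬ G.Adj q r) → ∀ y, (G'.Adj r y ↔ G.Adj r y))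

/-- LCC: connectivity is preserved -/
def LCC : Prop := ∀ (V : Type) (G : SimpleGraph V) (Q : Finset V) (v : V), Conn G Q → v ∈ Q →
    Conn (lc G v) Q

/-- CZY: if the deletion of `q` disconnects, local complementation and deletion does not -/
def CZY : Prop := ∀ (V : Type) [DecidableEq V] (G : SimpleGraph V) (Q : Finset V) (q : V),
    Conn G Q → q ∈ Q → 2 ≤ #Q → ¬ Conn G (Q.erase q) → Conn (lc G q) (Q.erase q)

/-- LTR: neighbourhood vectors under erasing and local complementation -/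
def LTR : Prop := ∀ (V : Type) [DecidableEq V] (G : SimpleGraph V) (Q : Finset V) (q h : V),
    h ∉ Q → q ∈ Q →
    nb (lc G q) Q h = nb G Q h + (nb G Q h q) • nb G Q q ∧
    nb G (Q.erase q) h = nb G Q h + (nb G Q h q) • (Pi.single q 1 : V → ZMod 2) ∧
    lc (lc G q) q = G

/-- STP: one step (uses CZY, LTR) -/
def STP : Prop := ∀ (V : Type) [DecidableEq V] (G : SimpleGraph V) (Q H : Finset V) (q : V),
    Conn G Q → Disjoint Q H → LinearIndepOn (ZMod 2) (nb G Q) (H : Set V) → q ∈ Q → 2 ≤ #Q →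
    (Conn G (Q.erase q) →
      (Pi.single q 1 : V → ZMod 2) ∉ Submodule.span (ZMod 2) (nb G Q '' (H : Set V)) →
      LinearIndepOn (ZMod 2) (nb G (Q.erase q)) (H : Set V)) ∧
    (¬ Conn G (Q.erase q) →
      nb G Q q + Pi.single q 1 ∉ Submodule.span (ZMod 2) (nb G Q '' (H : Set V)) →
      Conn (lc G q) (Q.erase q) ∧
        LinearIndepOn (ZMod 2) (nb (lc G q) (Q.erase q)) (H : Set V))

/-- FM: reduction to a square matrix (uses LQA, LCC, CZY, LTR, STP) -/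
def FM : Prop := ∀ (V : Type) [DecidableEq V] (G : SimpleGraph V) (Q H : Finset V),
    Conn G Q → Disjoint Q H → H.Nonempty → LinearIndepOn (ZMod 2) (nb G Q) (H : Set V) →
    ∃ (G' : SimpleGraph V) (Q' : Finset V), Q' ⊆ Q ∧ LQ Q G G' ∧ Conn G' Q' ∧ #Q' = #H ∧
      LinearIndepOn (ZMod 2) (nb G' Q') (H : Set V)

/-- TRS: the rows of an invertible matrix -/
def TRS : Prop := ∀ (V : Type) [DecidableEq V] (G : SimpleGraph V) (Q H : Finset V),
    #Q = #H → LinearIndepOn (ZMod 2) (nb G Q) (H : Set V) →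
    ∀ U ⊆ Q, ∀ U' ⊆ Q, ∑ u ∈ U, nb G H u = ∑ u ∈ U', nb G H u → U = U'

/-- IPC: contraction of an induced path (uses LQA) -/
def IPC : Prop := ∀ (V : Type) [DecidableEq V] (G : SimpleGraph V) (H U : Finset V) (a : V),
    IP G a U → Disjoint U H →
    ∃ G' : SimpleGraph V, LQ (U.erase a) G G' ∧ nb G' H a = ∑ u ∈ U, nb G H u

/-- GEO: many induced paths in a connected graph -/
def GEO : Prop := ∀ (V : Type) [DecidableEq V] (G : SimpleGraph V) (Q : Finset V), Conn G Q →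
    ∃ P : Finset (Finset V), #Q * (#Q + 1) ≤ 2 * #P ∧ ∀ U ∈ P, U ⊆ Q ∧ ∃ a ∈ U, IP G a U

/-- ROW: many possible rows (uses FM, TRS, IPC, GEO, LQA) -/
def ROW : Prop := ∀ (V : Type) [DecidableEq V] (G : SimpleGraph V) (R H : Finset V),
    Conn G R → Disjoint R H → H.Nonempty → LinearIndepOn (ZMod 2) (nb G R) (H : Set V) →
    ∀ B : Finset (V → ZMod 2), 2 * #B < #H * (#H + 1) →
    ∃ a ∈ R, ∃ G' : SimpleGraph V, LQ R G G' ∧ nb G' H a ∉ B

/-- FAM: distinct rows from a family of connected sets (uses LQA, ROW) -/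
def FAM : Prop := ∀ (V : Type) [DecidableEq V] (G : SimpleGraph V) (H : Finset V) (D : ℕ)
    (R : Fin D → Finset V), H.Nonempty → 2 * D ≤ #H * (#H + 1) →
    (∀ i, Conn G (R i)) → (∀ i, Disjoint (R i) H) →
    (∀ i, LinearIndepOn (ZMod 2) (nb G (R i)) (H : Set V)) →
    (∀ i j, i ≠ j → Anti G (R i) (R j) ∧ Disjoint (R i) (R j)) →
    ∃ (G' : SimpleGraph V) (a : Fin D → V), LE G G' ∧ (∀ i, a i ∈ R i) ∧
      (∀ i j, i ≠ j → nb G' H (a i) ≠ nb G' H (a j)) ∧ ∀ i j, ¬ G'.Adj (a i) (a j)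

/-- KAP: independent sets have few traces -/
def KAP : Prop := ∀ F : (∀ n : ℕ, SimpleGraph (Fin n) → Prop), VMClosed F →
    ∀ (t : ℕ) (H : SimpleGraph (Fin t)), ¬ F t H →
    ∀ (n : ℕ) (G : SimpleGraph (Fin n)) (I T : Finset (Fin n)), F n G → Disjoint I T →
    Indep G I → (∀ x ∈ I, ∀ y ∈ I, nb G T x = nb G T y → x = y) →
    #I ≤ R0 (t ^ 2 + t) * #T + 1

/-! ## Hall ratio and levels -/

/-- HSB: subadditivity -/
def HSB : Prop := ∀ (V : Type) [DecidableEq V] (G : SimpleGraph V) (A B : Finset V) (a b : ℕ),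
    (HallLE G A a → HallLE G B b → HallLE G (A ∪ B) (a + b)) ∧
    (HallLE G A a → HallLE G B a → Anti G A B → HallLE G (A ∪ B) a) ∧
    (HallLE G B b → A ⊆ B → b ≤ a → HallLE G A a)

/-- CMP: components (uses HSB) -/
def CMP : Prop := ∀ (V : Type) [DecidableEq V] (G : SimpleGraph V) (B : Finset V) (h : ℕ),
    ¬ HallLE G B h → ∃ B' ⊆ B, Conn G B' ∧ ¬ HallLE G B' h

/-- LAY: breadth first search -/
def LAY : Prop := ∀ (V : Type) [DecidableEq V] (G : SimpleGraph V) (B : Finset V) (z : V),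
    Conn G B → z ∈ B → ∃ f : V → ℕ, (∀ y ∈ B, (f y = 0 ↔ y = z)) ∧
      (∀ y ∈ B, ∀ s, f y = s + 1 → ∃ y' ∈ B, G.Adj y y' ∧ f y' = s) ∧
      ∀ y ∈ B, ∀ y' ∈ B, G.Adj y y' → f y' ≤ f y + 1

open Classical in
/-- LEV: one level (uses HSB, CMP, LAY) -/
def LEV : Prop := ∀ (V : Type) [DecidableEq V] (G : SimpleGraph V) (B : Finset V) (h : ℕ),
    1 ≤ h → (∀ v ∈ B, HallLE G (B.filter (fun y => G.Adj v y)) h) → ¬ HallLE G B (2 * h) →
    ∃ Q A B' : Finset V, Q ⊆ B ∧ A ⊆ B ∧ B' ⊆ B ∧ Conn G Q ∧ ¬ HallLE G B' h ∧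
      (∀ a ∈ A, ∃ q ∈ Q, G.Adj a q) ∧ (∀ b ∈ B', ∃ a ∈ A, G.Adj b a) ∧
      Anti G Q B' ∧ Disjoint Q B'

open Classical in
/-- LVS: many nested levels (uses HSB, LEV) -/
def LVS : Prop := ∀ (V : Type) [DecidableEq V] (G : SimpleGraph V) (k : ℕ) (B : Finset V)
    (h : ℕ), 1 ≤ h → (∀ v ∈ B, HallLE G (B.filter (fun y => G.Adj v y)) h) →
    ¬ HallLE G B (2 ^ k * h) →
    ∃ (Q A : Fin k → Finset V) (B' : Finset V), B' ⊆ B ∧ ¬ HallLE G B' h ∧
      (∀ l, Q l ⊆ B ∧ A l ⊆ B) ∧ (∀ l, Conn G (Q l)) ∧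
      (∀ l, ∀ a ∈ A l, ∃ q ∈ Q l, G.Adj a q) ∧ (∀ l, ∀ b ∈ B', ∃ a ∈ A l, G.Adj b a) ∧
      (∀ l, Anti G (Q l) B' ∧ Disjoint (Q l) B') ∧
      ∀ l l', l < l' → Anti G (Q l) (Q l') ∧ Disjoint (Q l) (Q l') ∧ Anti G (Q l) (A l')

open Classical in
/-- DIG: independent sets in digraphs of bounded outdegree -/
def DIG : Prop := ∀ (α : Type) [DecidableEq α] (U : Finset α) (bad : α → α → Prop) (d m : ℕ),
    (∀ x ∈ U, #(U.filter (fun y => y ≠ x ∧ bad x y)) ≤ d) → m * (2 * d + 1) ≤ #U →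
    ∃ W ⊆ U, #W = m ∧ ∀ x ∈ W, ∀ y ∈ W, x ≠ y → ¬ bad x y

open Classical in
/-- SMP: choice of the columns (uses DIG) -/
def SMP : Prop := ∀ (V : Type) [DecidableEq V] (G : SimpleGraph V) (B : Finset V)
    (η h k m : ℕ) (p : Fin k → V → V), 1 ≤ η → 1 ≤ m → 4 * (k + 1) * η * m ≤ h →
    ¬ HallLE G B h → (∀ v ∈ B, HallLE G (B.filter (fun y => G.Adj v y)) η) →
    (∀ l, ∀ x ∈ B, HallLE G (B.filter (fun y => G.Adj (p l x) y)) η) →
    ∃ W ⊆ B, #W = m ∧ ∀ x ∈ W, ∀ y ∈ W, x ≠ y → ¬ G.Adj x y ∧ ∀ l, ¬ G.Adj (p l x) y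

open Classical in
/-- CFG: existence of configurations (uses LVS, SMP, HSB) -/
def CFG : Prop := ∀ (V : Type) [DecidableEq V] (G : SimpleGraph V) (B : Finset V)
    (η k m : ℕ), 1 ≤ η → 1 ≤ m → (∀ v ∈ B, HallLE G (B.filter (fun y => G.Adj v y)) η) →
    ¬ HallLE G B (2 ^ k * (4 * (k + 1) * η * m)) →
    ∃ (Q : Fin k → Finset V) (p : Fin k → Fin m → V) (x : Fin m → V), Cfg G k m Q p x ∧
      ∀ l j, p l j ∈ B

/-! ## Ramsey arguments -/

/-- RAM: Ramsey's theorem for pairs and several colours -/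
def RAM : Prop := ∀ c n : ℕ, ∃ N : ℕ, ∀ f : Fin N → Fin N → Fin c, ∃ g : Fin n → Fin N,
    StrictMono g ∧ ∀ a b a' b' : Fin n, a < b → a' < b' → f (g a) (g b) = f (g a') (g b')

/-- RMA: the same with values in any finite type (uses RAM) -/
def RMA : Prop := ∀ (C : Type) [Fintype C] (n : ℕ), ∃ N : ℕ, ∀ f : Fin N → Fin N → C,
    ∃ g : Fin n → Fin N,
    StrictMono g ∧ ∀ a b a' b' : Fin n, a < b → a' < b' → f (g a) (g b) = f (g a') (g b')

/-- PIN: an independent subgrid (uses RMA) -/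
def PIN : Prop := ∀ w k m : ℕ, ∃ K M : ℕ, ∀ (V : Type) [DecidableEq V] (G : SimpleGraph V)
    (p : Fin K → Fin M → V) (B : Finset V), (∀ l j, p l j ∈ B) → CliqueLE G B w →
    (∀ l l' j j', p l j = p l' j' → l = l' ∧ j = j') →
    ∃ (g : Fin k → Fin K) (e : Fin m → Fin M), StrictMono g ∧ StrictMono e ∧
      ∀ a a' b b', ¬ G.Adj (p (g a) (e b)) (p (g a') (e b'))

/-- The three states of a sequence of vectors. -/
def State {V : Type} {M : ℕ} (v : Fin M → V → ZMod 2) (s : Fin 3) : Prop :=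
  (s = 0 ∧ ∀ j, v j = 0) ∨ (s = 1 ∧ ∃ i, ∀ j, v j i = 1) ∨
    (s = 2 ∧ LinearIndependent (ZMod 2) v)

/-- TRI: trichotomy -/
def TRI : Prop := ∀ m : ℕ, ∃ M : ℕ, ∀ (V : Type) (v : Fin M → V → ZMod 2),
    ∃ (e : Fin m → Fin M) (s : Fin 3), StrictMono e ∧ State (fun j => v (e j)) s

/-- HOM: homogeneous states (uses TRI, RMA) -/
def HOM : Prop := ∀ k m : ℕ, ∃ K M : ℕ, ∀ (V : Type) (v : Fin K → Fin K → Fin M → V → ZMod 2),
    ∃ (g : Fin k → Fin K) (e : Fin m → Fin M) (s : Fin 3), StrictMono g ∧ StrictMono e ∧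
      ∀ a b, a < b → State (fun j => v (g a) (g b) (e j)) s

/-! ## The three cases -/

/-- SUBC: subconfigurations and easy facts -/
def SUBC : Prop := ∀ (V : Type) (G : SimpleGraph V) (k m : ℕ) (Q : Fin k → Finset V)
    (p : Fin k → Fin m → V) (x : Fin m → V), Cfg G k m Q p x →
    (∀ (k' m' : ℕ) (g : Fin k' → Fin k) (e : Fin m' → Fin m), StrictMono g → StrictMono e →
      Cfg G k' m' (fun a => Q (g a)) (fun a b => p (g a) (e b)) (fun b => x (e b))) ∧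
    (∀ l l' j, p l j ∉ Q l') ∧ (∀ l j j', p l j ≠ x j') ∧
    ((1 ≤ k) → ∀ j j', x j = x j' → j = j') ∧
    (∀ l l' j j', p l j = p l' j' → l = l' ∧ j = j')

/-- CE: common neighbours (uses KAP, SUBC) -/
def CE : Prop := ∀ F : (∀ n : ℕ, SimpleGraph (Fin n) → Prop), VMClosed F →
    ∀ (t : ℕ) (H : SimpleGraph (Fin t)), ¬ F t H →
    ∀ (n : ℕ) (G : SimpleGraph (Fin n)) (k m : ℕ) (Q : Fin k → Finset (Fin n))
      (p : Fin k → Fin m → Fin n) (x : Fin m → Fin n), F n G → Cfg G k m Q p x →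
    (∀ l l' j j', ¬ G.Adj (p l j) (p l' j')) →
    (∀ l l', l < l' → ∃ q ∈ Q l', ∀ j, G.Adj (p l j) q) →
    2 * (2 * R0 (t ^ 2 + t) + 2) ≤ k → 2 * R0 (t ^ 2 + t) + 2 ≤ m → False

/-- CI: independent traces (uses KAP, FAM, SUBC) -/
def CI : Prop := ∀ F : (∀ n : ℕ, SimpleGraph (Fin n) → Prop), VMClosed F →
    ∀ (t : ℕ) (H : SimpleGraph (Fin t)), ¬ F t H →
    ∀ (n : ℕ) (G : SimpleGraph (Fin n)) (k m : ℕ) (Q : Fin k → Finset (Fin n))
      (p : Fin k → Fin m → Fin n) (x : Fin m → Fin n), F n G → Cfg G k m Q p x →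
    (∀ l l', l < l' → LinearIndependent (ZMod 2) (fun j => nb G (Q l') (p l j))) →
    (R0 (t ^ 2 + t) + 1) * (2 * R0 (t ^ 2 + t) + 3) + 1 ≤ k →
    2 * R0 (t ^ 2 + t) + 2 ≤ m → False

/-- CN: no neighbours (uses KAP, FAM, SUBC) -/
def CN : Prop := ∀ F : (∀ n : ℕ, SimpleGraph (Fin n) → Prop), VMClosed F →
    ∀ (t : ℕ) (H : SimpleGraph (Fin t)), ¬ F t H →
    ∀ (n : ℕ) (G : SimpleGraph (Fin n)) (k m : ℕ) (Q : Fin k → Finset (Fin n))
      (p : Fin k → Fin m → Fin n) (x : Fin m → Fin n), F n G → Cfg G k m Q p x →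
    (∀ l l' j j', ¬ G.Adj (p l j) (p l' j')) →
    (∀ l l', l < l' → ∀ j, ∀ q ∈ Q l', ¬ G.Adj (p l j) q) →
    (R0 (t ^ 2 + t) + 1) * (2 * R0 (t ^ 2 + t) + 3) ≤ k →
    2 * R0 (t ^ 2 + t) + 2 ≤ m → False

/-- HALL: the main theorem (uses CFG, PIN, HOM, SUBC, CE, CI, CN) -/
def HALL : Prop := ∀ F : (∀ n : ℕ, SimpleGraph (Fin n) → Prop), VMClosed F →
    ∀ (t : ℕ) (H : SimpleGraph (Fin t)), ¬ F t H →
    ∀ w : ℕ, ∃ η : ℕ, ∀ (n : ℕ) (G : SimpleGraph (Fin n)), F n G →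
      ∀ B : Finset (Fin n), CliqueLE G B w → HallLE G B η

end Pool.Agent.H53.HR
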